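import Pool.Agent.Helper31.LW.Goals

/-! # Packet LW-NSPX (MP_6fb600_gt) -/

open MeasureTheory Set
open scoped ENNReal Matrix
open Pool.Agent.Helper47.AQ

noncomputable section

namespace Pool.Agent.Helper79.LW

open Pool.Agent.Helper31.LW

/-- A point of a convex hull which is a strict maximum of a linear functional on the generating
set is one of the generators of every other convex hull description. -/
theorem mem_range_of_max {n : ℕ} {P : Set (Fin n → ℝ)} {σ : Type} {v : σ → Fin n → ℝ}
    (hP : convexHull ℝ P = convexHull ℝ (range v)) {u : Fin n → ℝ} (hu : u ∈ P)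
    (f : (Fin n → ℝ) →ₗ[ℝ] ℝ) (hf : ∀ p ∈ P, p ≠ u → f p < f u) : u ∈ range v := by
  have hS : Convex ℝ {x : Fin n → ℝ | f x < f u ∨ x = u} := by
    intro x hx y hy a b ha hb hab
    simp only [mem_ofPred_eq] at hx hy ⊢
    rcases hx with hx | hx
    · rcases hy with hy | hy
      · left
        rw [map_add, map_smul, map_smul, smul_eq_mul, smul_eq_mul]
        rcases eq_or_lt_of_le ha with h0 | h0
        · have hb1 : b = 1 := by rw [← h0] at hab; linarith
          rw [← h0, hb1]; linarith
        · have h1 : a * f x < a * f u := mul_lt_mul_of_pos_left hx h0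
          have h2 : b * f y ≤ b * f u := mul_le_mul_of_nonneg_left hy.le hb
          have h3 : a * f u + b * f u = f u := by rw [← add_mul, hab, one_mul]
          linarith
      · rcases eq_or_lt_of_le ha with h0 | h0
        · right
          have hb1 : b = 1 := by rw [← h0] at hab; linarith
          rw [← h0, hb1, hy]; simp
        · left
          rw [map_add, map_smul, map_smul, smul_eq_mul, smul_eq_mul, hy]
          have h1 : a * f x < a * f u := mul_lt_mul_of_pos_left hx h0
          have h3 : a * f u + b * f u = f u := by rw [← add_mul, hab, one_mul]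
          linarith
    · rcases hy with hy | hy
      · rcases eq_or_lt_of_le hb with h0 | h0
        · right
          have hb1 : a = 1 := by rw [← h0] at hab; linarith
          rw [← h0, hb1, hx]; simp
        · left
          rw [map_add, map_smul, map_smul, smul_eq_mul, smul_eq_mul, hx]
          have h1 : b * f y < b * f u := mul_lt_mul_of_pos_left hy h0
          have h3 : a * f u + b * f u = f u := by rw [← add_mul, hab, one_mul]
          linarith
      · right
        rw [hx, hy, ← add_smul, hab, one_smul]
  have hsub : convexHull ℝ P ⊆ {x : Fin n → ℝ | f x < f u ∨ x = u} := by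
    refine convexHull_min ?_ hS
    intro p hp
    by_cases h : p = u
    · exact Or.inr h
    · exact Or.inl (hf p hp h)
  by_contra hnot
  have hv : range v ⊆ {x : Fin n → ℝ | f x < f u} := by
    rintro x ⟨a, rfl⟩
    have h1 : v a ∈ convexHull ℝ P := by
      rw [hP]; exact subset_convexHull ℝ _ ⟨a, rfl⟩
    rcases hsub h1 with h2 | h2
    · exact h2
    · exact absurd ⟨a, h2⟩ hnot
  have hconv : Convex ℝ {x : Fin n → ℝ | f x < f u} :=
    convex_halfSpace_lt f.isLinear (f u)
  have h3 : u ∈ convexHull ℝ (range v) := by
    rw [← hP]; exact subset_convexHull ℝ _ hu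
  have h4 : u ∈ {x : Fin n → ℝ | f x < f u} := convexHull_min hv hconv h3
  have h5 : f u < f u := h4
  exact lt_irrefl _ h5

theorem gNSPX : Pool.Agent.Helper31.LW.NSPX := by
  intro n k g w hw i₁ i₂ h1 h2 hg hsimp
  obtain ⟨-, σ, hσ, v, hv, hK⟩ := hsimp
  -- the generators
  have hwv0 : ∀ (j : Fin k) (i : Fin n), 0 ≤ wv g w j i := by
    intro j i
    unfold wv
    split_ifs
    · exact hw i
    · exact le_refl _
  have hNF : convexHull ℝ (range (fun i : Fin n => (Pi.single i 1 : Fin n → ℝ)) ∪
      range (fun j : Fin k => -(wv g w j))) = convexHull ℝ (range v) := hK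
  have hE : ∀ i : Fin n, (Pi.single i 1 : Fin n → ℝ) ∈ range v := by
    intro i
    refine mem_range_of_max hNF (Or.inl ⟨i, rfl⟩) (LinearMap.proj i) ?_
    intro p hp hne
    have hu : (LinearMap.proj i : (Fin n → ℝ) →ₗ[ℝ] ℝ) (Pi.single i 1) = 1 := by
      simp
    rw [hu]
    rcases hp with ⟨j, rfl⟩ | ⟨j, rfl⟩
    · have hji : j ≠ i := by
        rintro rfl
        exact hne rfl
      have : (LinearMap.proj i : (Fin n → ℝ) →ₗ[ℝ] ℝ) (Pi.single j 1) = 0 := by
        simp [hji.symm]
      simp only [this]
      norm_num
    · have h3 := hwv0 j i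
      have : (LinearMap.proj i : (Fin n → ℝ) →ₗ[ℝ] ℝ) (-(wv g w j)) = -(wv g w j i) := by
        simp
      simp only [this]
      linarith
  have hU : ∀ i₀ : Fin n, 0 < w i₀ → -(wv g w (g i₀)) ∈ range v := by
    intro i₀ h0
    refine mem_range_of_max hNF (Or.inr ⟨g i₀, rfl⟩) (-(LinearMap.proj i₀)) ?_
    intro p hp hne
    have hu : (-(LinearMap.proj i₀) : (Fin n → ℝ) →ₗ[ℝ] ℝ) (-(wv g w (g i₀))) = w i₀ := by
      simp [wv]
    rw [hu]
    rcases hp with ⟨j, rfl⟩ | ⟨j, rfl⟩
    · have h3 : (-(LinearMap.proj i₀) : (Fin n → ℝ) →ₗ[ℝ] ℝ) (Pi.single j 1) ≤ 0 := by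
        by_cases hj : i₀ = j
        · subst hj; simp
        · simp [hj]
      exact lt_of_le_of_lt h3 h0
    · have hj : g i₀ ≠ j := by
        rintro rfl
        exact hne rfl
      have h3 : (-(LinearMap.proj i₀) : (Fin n → ℝ) →ₗ[ℝ] ℝ) (-(wv g w j)) = 0 := by
        simp [wv, hj]
      simp only [h3]
      exact h0
  -- n + 2 different points
  let F : Option (Option (Fin n)) → (Fin n → ℝ) := fun x =>
    match x with
    | none => -(wv g w (g i₂))
    | some none => -(wv g w (g i₁))
    | some (some i) => Pi.single i 1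
  have hFr : ∀ x, F x ∈ range v := by
    intro x
    rcases x with _ | x
    · exact hU i₂ h2
    · rcases x with _ | i
      · exact hU i₁ h1
      · exact hE i
  have hes : ∀ (i : Fin n) (j : Fin k), (Pi.single i 1 : Fin n → ℝ) ≠ -(wv g w j) := by
    intro i j h
    have h3 := congrFun h i
    have h4 := hwv0 j i
    rw [Pi.single_eq_same, Pi.neg_apply] at h3
    linarith
  have hne12 : -(wv g w (g i₁)) ≠ -(wv g w (g i₂)) := by
    intro h
    have h3 := congrFun h i₁
    have h4 : wv g w (g i₁) i₁ = w i₁ := by simp [wv]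
    have h5 : wv g w (g i₂) i₁ = 0 := by simp [wv, hg]
    rw [Pi.neg_apply, Pi.neg_apply, h4, h5] at h3
    linarith
  have hinj : Function.Injective F := by
    intro x y hxy
    rcases x with _ | x <;> rcases y with _ | y
    · rfl
    · rcases y with _ | j
      · exact absurd hxy.symm hne12
      · exact absurd hxy.symm (hes j _)
    · rcases x with _ | i
      · exact absurd hxy hne12
      · exact absurd hxy (hes i _)
    · rcases x with _ | i <;> rcases y with _ | j
      · rfl
      · exact absurd hxy.symm (hes j _)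
      · exact absurd hxy (hes i _)
      · by_cases hij : i = j
        · rw [hij]
        · exfalso
          have h3 : (Pi.single i 1 : Fin n → ℝ) i = (Pi.single j 1 : Fin n → ℝ) i :=
            congrFun hxy i
          rw [Pi.single_eq_same, Pi.single_eq_of_ne hij] at h3
          exact one_ne_zero h3
  choose s hs using hFr
  have hsinj : Function.Injective s := by
    intro x y hxy
    apply hinj
    rw [← hs x, ← hs y, hxy]
  have hc1 : Fintype.card (Option (Option (Fin n))) ≤ Fintype.card σ :=
    Fintype.card_le_of_injective s hsinj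
  have hc2 : Fintype.card σ ≤ Module.finrank ℝ (vectorSpan ℝ (range v)) + 1 :=
    hv.card_le_finrank_succ
  have hc3 : Module.finrank ℝ (vectorSpan ℝ (range v)) ≤ Module.finrank ℝ (Fin n → ℝ) :=
    Submodule.finrank_le _
  rw [Module.finrank_fin_fun] at hc3
  rw [Fintype.card_option, Fintype.card_option, Fintype.card_fin] at hc1
  omega

end Pool.Agent.Helper79.LW
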